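import Pool.Agent.helper77.N3.Spec

set_option autoImplicit false

namespace Pool.Agent.helper77.N3

open Finset Pool.Agent.NK Pool.Agent.helper37.NF

theorem CE_aux : ∀ a ∈ range 13, ∀ C ∈ ({(1, 1), (1, 2), (1, 3), (2, 1), (2, 2), (3, 1)} : Finset (ℕ × ℕ)).powerset,
    (∀ c ∈ C, ∀ d ∈ C, c ≠ d → (c.1 < d.1 ∧ c.2 < d.2) ∨ (d.1 < c.1 ∧ d.2 < c.2)) →
    ∑ c ∈ C, a.choose c.1 * (12 - a).choose c.2 ≤ 261 := by decide +kernel

theorem CE : CE_stmt := by
  intro a b C hab hC hch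
  have hb : b = 12 - a := by omega
  subst hb
  refine CE_aux a (Finset.mem_range.mpr (by omega)) C ?_ hch
  rw [Finset.mem_powerset]
  intro c hc
  obtain ⟨h1, h2, h3⟩ := hC c hc
  obtain ⟨p, q⟩ := c
  dsimp only at h1 h2 h3
  have hp : p = 1 ∨ p = 2 ∨ p = 3 := by omega
  have hq : q = 1 ∨ q = 2 ∨ q = 3 := by omega
  rcases hp with rfl | rfl | rfl <;> rcases hq with rfl | rfl | rfl <;> first | (exfalso; omega) | decide

end Pool.Agent.helper77.N3
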